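import Pool.Agent.W574.MO.Cone

set_option autoImplicit false

/-! # Powers of a polynomial and finiteness of the set of denominators -/

namespace Pool.Agent.V119.PF

open MvPolynomial Pool.Agent.W574.MO Pool.Agent.W574.HS Pool.Agent.H628R4.TP

variable {σ : Type} [Finite σ]

/-- a functional equation of `F ^ k` gives one of `F`, first the algebraic form -/
theorem pow_key (F : MvPolynomial σ ℂ) (hF : F ≠ 0) (k : ℕ) (hk : k ≠ 0) (b : Polynomial ℂ)
    (H : MvPolynomial σ ℂ) (P : ℕ →₀ weylS σ)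
    (hP : ∀ s : ℕ, H * (C (b.eval (s : ℂ)) * (F ^ k) ^ s) =
        P.sum fun m Q => ((s : ℂ) ^ m) • (Q : Module.End ℂ (MvPolynomial σ ℂ)) ((F ^ k) ^ (s + 1)))
    (t : ℕ) :
    H * (C (b.eval ((k : ℂ)⁻¹ * t)) * F ^ t) =
      ∑ m ∈ P.support, (((k : ℂ)⁻¹ * t) ^ m) •
        (P m : Module.End ℂ (MvPolynomial σ ℂ)) (F ^ (t + k)) := by
  classical
  have h1 : ∀ m : ℕ, Seq F fun n => (P m : Module.End ℂ (MvPolynomial σ ℂ)) (F ^ n) := fun m =>
    act_pow F (P m).1 (P m).2 _ ⟨0, 1, fun n => by simp⟩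
  choose e r hr using h1
  set K := ∑ m ∈ P.support, e m with hK
  have hkK : ∀ m ∈ P.support, e m ≤ K := fun m hm =>
    Finset.single_le_sum (f := e) (fun _ _ => Nat.zero_le _) hm
  have hFK : ∀ m ∈ P.support, F ^ K = F ^ (K - e m) * F ^ e m := fun m hm => by
    rw [← pow_add, Nat.sub_add_cancel (hkK m hm)]
  set h : Polynomial (MvPolynomial σ ℂ) :=
    Polynomial.C (F ^ K * H) * (b.comp (Polynomial.C ((k : ℂ)⁻¹) * Polynomial.X)).map C with hh
  set g : Polynomial (MvPolynomial σ ℂ) := ∑ m ∈ P.support,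
    Polynomial.C (C (((k : ℂ)⁻¹) ^ m)) * (Polynomial.X ^ m * (Polynomial.C (F ^ (K - e m)) *
      (r m).comp (Polynomial.X + Polynomial.C (k : MvPolynomial σ ℂ)) * Polynomial.C (F ^ k)))
    with hg
  have hhe : ∀ s : ℕ, h.eval (s : MvPolynomial σ ℂ) * F ^ s =
      F ^ K * (H * (C (b.eval ((k : ℂ)⁻¹ * s)) * F ^ s)) := by
    intro s
    rw [hh, Polynomial.eval_mul, Polynomial.eval_C, eval_map_C]
    rw [Polynomial.eval_comp, Polynomial.eval_mul, Polynomial.eval_C, Polynomial.eval_X]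
    ring
  have hge : ∀ s : ℕ, g.eval (s : MvPolynomial σ ℂ) * F ^ s =
      F ^ K * ∑ m ∈ P.support, (((k : ℂ)⁻¹ * s) ^ m) •
        (P m : Module.End ℂ (MvPolynomial σ ℂ)) (F ^ (s + k)) := by
    intro s
    rw [hg, Polynomial.eval_finsetSum, Finset.sum_mul, Finset.mul_sum]
    refine Finset.sum_congr rfl fun m hm => ?_
    have h2 : F ^ e m * (P m : Module.End ℂ (MvPolynomial σ ℂ)) (F ^ (s + k)) =
        (r m).eval ((s + k : ℕ) : MvPolynomial σ ℂ) * F ^ (s + k) := hr m (s + k)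
    simp only [Polynomial.eval_mul, Polynomial.eval_pow, Polynomial.eval_X, Polynomial.eval_C,
      Polynomial.eval_comp, Polynomial.eval_add]
    rw [hFK m hm, MvPolynomial.smul_eq_C_mul, mul_pow, C_mul, C_pow (σ := σ) ((s : ℂ)) m]
    have h4 : C (s : ℂ) = ((s : ℕ) : MvPolynomial σ ℂ) := by simp
    rw [h4]
    push_cast at h2
    rw [pow_add F s k] at h2 ⊢
    linear_combination -(C (((k : ℂ)⁻¹) ^ m)) * (s : MvPolynomial σ ℂ) ^ m * F ^ (K - e m) * h2
  have hpoly : h = g := by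
    apply Polynomial.eq_of_infinite_eval_eq
    refine Set.Infinite.mono ?_ (Set.infinite_range_of_injective
      (f := fun n : ℕ => ((k * n : ℕ) : MvPolynomial σ ℂ)) ?_)
    · rintro _ ⟨s, rfl⟩
      rw [Set.mem_ofPred_eq]
      apply mul_right_cancel₀ (pow_ne_zero (k * s) hF)
      rw [hhe, hge]
      congr 1
      have h5 := hP s
      have h6 : (k : ℂ)⁻¹ * ((k * s : ℕ) : ℂ) = s := by
        have : (k : ℂ) ≠ 0 := by exact_mod_cast hk
        push_cast
        field_simp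
      rw [h6, pow_mul, h5, Finsupp.sum]
      refine Finset.sum_congr rfl fun m _ => ?_
      rw [← pow_mul F k (s + 1), mul_add, mul_one]
    · intro x y hxy
      have h7 : k * x = k * y := Nat.cast_injective hxy
      exact Nat.eq_of_mul_eq_mul_left (Nat.pos_of_ne_zero hk) h7
  have h8 := hhe t
  rw [hpoly, hge] at h8
  exact (mul_left_cancel₀ (pow_ne_zero K hF) h8).symm

/-- a local functional equation of `F ^ k` gives one of `F` -/
theorem pow_local (F : MvPolynomial σ ℂ) (hF : F ≠ 0) (k : ℕ) (hk : k ≠ 0) (b : Polynomial ℂ)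
    (hb : IsLocalBFunction (F ^ k) b) :
    IsLocalBFunction F (b.comp (Polynomial.C ((k : ℂ)⁻¹) * Polynomial.X)) := by
  classical
  obtain ⟨H, P, hH, hP⟩ := algebraic_of_local (F ^ k) (pow_ne_zero _ hF) b hb
  have key := pow_key F hF k hk b H P hP
  set I : MvPowerSeries σ ℂ := (H : MvPowerSeries σ ℂ)⁻¹ with hI
  have hI1 : (H : MvPowerSeries σ ℂ) * I = 1 := by
    apply MvPowerSeries.mul_inv_cancel
    rw [← MvPowerSeries.coeff_zero_eq_constantCoeff_apply, MvPolynomial.coeff_coe]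
    exact hH
  refine ⟨P.support.card, fun i => (P.support.equivFin.symm i : ℕ),
    fun i => MvPowerSeries.C (((k : ℂ)⁻¹) ^ (P.support.equivFin.symm i : ℕ)) * I,
    fun i => P (P.support.equivFin.symm i : ℕ) * ⟨_, mulLeft_mem (F ^ (k - 1))⟩, fun s => ?_⟩
  have e1 : ∀ i : Fin P.support.card,
      MvPowerSeries.C ((s : ℂ) ^ ((P.support.equivFin.symm i : ℕ))) *
        (MvPowerSeries.C (((k : ℂ)⁻¹) ^ (P.support.equivFin.symm i : ℕ)) * I *
          ((((P (P.support.equivFin.symm i : ℕ) * ⟨_, mulLeft_mem (F ^ (k - 1))⟩ : weylS σ) :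
            Module.End ℂ (MvPolynomial σ ℂ)) (F ^ (s + 1)) : MvPolynomial σ ℂ) :
            MvPowerSeries σ ℂ)) =
      (fun m : P.support => I * (((((k : ℂ)⁻¹ * s) ^ (m : ℕ)) •
        (P m : Module.End ℂ (MvPolynomial σ ℂ)) (F ^ (s + k)) : MvPolynomial σ ℂ) :
          MvPowerSeries σ ℂ)) (P.support.equivFin.symm i) := by
    intro i
    have e2 : (((P (P.support.equivFin.symm i : ℕ) * ⟨_, mulLeft_mem (F ^ (k - 1))⟩ : weylS σ) :
            Module.End ℂ (MvPolynomial σ ℂ)) (F ^ (s + 1)) : MvPolynomial σ ℂ) =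
        (P (P.support.equivFin.symm i : ℕ) : Module.End ℂ (MvPolynomial σ ℂ)) (F ^ (s + k)) := by
      change (P (P.support.equivFin.symm i : ℕ) : Module.End ℂ (MvPolynomial σ ℂ))
        (F ^ (k - 1) * F ^ (s + 1)) = _
      rw [← pow_add, show k - 1 + (s + 1) = s + k by omega]
    rw [e2]
    simp only [MvPolynomial.smul_eq_C_mul, MvPolynomial.coe_mul, MvPolynomial.coe_C, mul_pow,
      map_mul]
    ring
  rw [Finset.sum_congr rfl fun i _ => e1 i]
  rw [Equiv.sum_comp P.support.equivFin.symm (fun m : P.support => I * (((((k : ℂ)⁻¹ * s) ^ (m : ℕ))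
    • (P m : Module.End ℂ (MvPolynomial σ ℂ)) (F ^ (s + k)) : MvPolynomial σ ℂ) :
          MvPowerSeries σ ℂ)), ← Finset.mul_sum]
  have h9 := congrArg (fun p : MvPolynomial σ ℂ => (p : MvPowerSeries σ ℂ)) (key s)
  simp only [MvPolynomial.coe_mul] at h9
  rw [Finset.sum_coe_sort P.support (fun m : ℕ => (((((k : ℂ)⁻¹ * s) ^ (m : ℕ))
    • (P m : Module.End ℂ (MvPolynomial σ ℂ)) (F ^ (s + k)) : MvPolynomial σ ℂ) :
          MvPowerSeries σ ℂ))]
  have h10 : ((∑ m ∈ P.support, (((k : ℂ)⁻¹ * s) ^ m) •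
        (P m : Module.End ℂ (MvPolynomial σ ℂ)) (F ^ (s + k)) : MvPolynomial σ ℂ) :
          MvPowerSeries σ ℂ) = ∑ m ∈ P.support, (((((k : ℂ)⁻¹ * s) ^ (m : ℕ))
    • (P m : Module.End ℂ (MvPolynomial σ ℂ)) (F ^ (s + k)) : MvPolynomial σ ℂ) :
          MvPowerSeries σ ℂ) :=
    map_sum (MvPolynomial.coeToMvPowerSeries.ringHom (R := ℂ) (σ := σ)) _ _
  rw [← h10, ← h9, Polynomial.eval_comp, Polynomial.eval_mul, Polynomial.eval_C,
    Polynomial.eval_X, ← mul_assoc I, mul_comm I, hI1, one_mul, MvPolynomial.coe_C]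

variable {M : Type} [CommRing M]

/-- only finitely many pairs are needed for the denominators of one series -/
theorem fin_pairs (L : Mˣ) (K : ℕ → ℕ → Prop) (Z : PowerSeries M) (hZ : Z ∈ DenRing L K) :
    ∃ S : Finset (ℕ × ℕ), (∀ p ∈ S, 1 ≤ p.1 ∧ 1 ≤ p.2 ∧ K p.1 p.2) ∧
      Z ∈ DenRing L fun a n => (a, n) ∈ S := by
  classical
  have mono : ∀ (S T : Finset (ℕ × ℕ)), S ⊆ T →
      DenRing L (fun a n => (a, n) ∈ S) ≤ DenRing L fun a n => (a, n) ∈ T := by
    intro S T h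
    refine Subring.closure_mono (Set.union_subset_union_right _ ?_)
    rintro u ⟨a, n, ha, hn, hK, hu⟩
    exact ⟨a, n, ha, hn, h hK, hu⟩
  induction hZ using Subring.closure_induction with
  | mem x hx =>
    rcases hx with hx | ⟨a, n, ha, hn, hK, hu⟩
    · exact ⟨∅, by simp, Subring.subset_closure (Or.inl hx)⟩
    · refine ⟨{(a, n)}, ?_, Subring.subset_closure (Or.inr ⟨a, n, ha, hn, by simp, hu⟩)⟩
      intro p hp
      rw [Finset.mem_singleton] at hp
      subst hp
      exact ⟨ha, hn, hK⟩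
  | zero => exact ⟨∅, by simp, Subring.zero_mem _⟩
  | one => exact ⟨∅, by simp, Subring.one_mem _⟩
  | add x y _ _ hx hy =>
    obtain ⟨S, hS, hx⟩ := hx
    obtain ⟨T, hT, hy⟩ := hy
    refine ⟨S ∪ T, ?_, Subring.add_mem _ (mono _ _ Finset.subset_union_left hx)
      (mono _ _ Finset.subset_union_right hy)⟩
    intro p hp
    rcases Finset.mem_union.1 hp with h | h
    · exact hS p h
    · exact hT p h
  | neg x _ hx =>
    obtain ⟨S, hS, hx⟩ := hx
    exact ⟨S, hS, Subring.neg_mem _ hx⟩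
  | mul x y _ _ hx hy =>
    obtain ⟨S, hS, hx⟩ := hx
    obtain ⟨T, hT, hy⟩ := hy
    refine ⟨S ∪ T, ?_, Subring.mul_mem _ (mono _ _ Finset.subset_union_left hx)
      (mono _ _ Finset.subset_union_right hy)⟩
    intro p hp
    rcases Finset.mem_union.1 hp with h | h
    · exact hS p h
    · exact hT p h

/-- the substitution `T ↦ T ^ k` -/
theorem expand_mem (L : Mˣ) (K K' : ℕ → ℕ → Prop) (k : ℕ) (hk : k ≠ 0)
    (hKK : ∀ a n, 1 ≤ a → K a n → K' (k * a) n) (Z : PowerSeries M) (hZ : Z ∈ DenRing L K) :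
    PowerSeries.expand k hk Z ∈ DenRing L K' := by
  have h1 : DenRing L K ≤ (DenRing L K').comap
      (PowerSeries.expand k hk : PowerSeries M →ₐ[M] PowerSeries M).toRingHom := by
    refine (Subring.closure_le).2 ?_
    rintro x (⟨p, rfl⟩ | ⟨a, n, ha, hn, hK, hu⟩)
    · change PowerSeries.expand k hk (p : PowerSeries M) ∈ DenRing L K'
      refine Subring.subset_closure (Or.inl ⟨Polynomial.expand M k p, ?_⟩)
      ext d
      rw [Polynomial.coeff_coe, Polynomial.coeff_expand (Nat.pos_of_ne_zero hk),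
        PowerSeries.coeff_expand, Polynomial.coeff_coe]
    · change PowerSeries.expand k hk x ∈ DenRing L K'
      refine Subring.subset_closure (Or.inr ⟨k * a, n, ?_, hn, hKK a n ha hK, ?_⟩)
      · exact Nat.one_le_iff_ne_zero.2 (Nat.mul_ne_zero hk (by omega))
      · have h2 := congrArg (PowerSeries.expand k hk) hu
        rw [map_mul, map_sub, map_one, map_mul, map_pow, PowerSeries.expand_C,
          PowerSeries.expand_X, ← pow_mul] at h2
        exact h2
  exact h1 hZ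

end Pool.Agent.V119.PF
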